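import Pool.Agent.H92.EQ.TF1

/-!
Board MP_75a732_an, block F: the rows W1, W4, W5, W6, W8 (Wirtinger calculus).
-/

namespace Pool.Agent.H78.EQ

open scoped BigOperators ComplexConjugate ContDiff ComplexOrder
open MeasureTheory
open Pool.Agent.H92.EQ

noncomputable section

section lin

variable {ι : Type} [Fintype ι] [DecidableEq ι]

/-- `wd` as a linear functional of the real differential -/
def Lw (a : ι) : ((ι → ℂ) →L[ℝ] ℂ) →L[ℝ] ℂ :=
  (1 / 2 : ℂ) • ContinuousLinearMap.apply ℝ ℂ (Pi.single a 1 : ι → ℂ) -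
    (Complex.I / 2) • ContinuousLinearMap.apply ℝ ℂ (Pi.single a Complex.I : ι → ℂ)

/-- `wdb` as a linear functional of the real differential -/
def Lb (a : ι) : ((ι → ℂ) →L[ℝ] ℂ) →L[ℝ] ℂ :=
  (1 / 2 : ℂ) • ContinuousLinearMap.apply ℝ ℂ (Pi.single a 1 : ι → ℂ) +
    (Complex.I / 2) • ContinuousLinearMap.apply ℝ ℂ (Pi.single a Complex.I : ι → ℂ)

theorem Lw_apply (a : ι) (A : (ι → ℂ) →L[ℝ] ℂ) :
    Lw a A = (A (Pi.single a 1) - Complex.I * A (Pi.single a Complex.I)) / 2 := by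
  unfold Lw
  simp only [sub_apply, smul_apply,
    ContinuousLinearMap.apply_apply, smul_eq_mul]
  ring

theorem Lb_apply (a : ι) (A : (ι → ℂ) →L[ℝ] ℂ) :
    Lb a A = (A (Pi.single a 1) + Complex.I * A (Pi.single a Complex.I)) / 2 := by
  unfold Lb
  simp only [add_apply, smul_apply,
    ContinuousLinearMap.apply_apply, smul_eq_mul]
  ring

theorem wd_eq (a : ι) (f : (ι → ℂ) → ℂ) (z : ι → ℂ) : wd a f z = Lw a (fderiv ℝ f z) := by
  rw [Lw_apply]; rfl

theorem wdb_eq (a : ι) (f : (ι → ℂ) → ℂ) (z : ι → ℂ) : wdb a f z = Lb a (fderiv ℝ f z) := by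
  rw [Lb_apply]; rfl

theorem fd_diff {f : (ι → ℂ) → ℂ} {z : ι → ℂ} (hf : ContDiffAt ℝ 2 f z) :
    DifferentiableAt ℝ (fderiv ℝ f) z :=
  (hf.fderiv_right (m := 1) (by norm_num)).differentiableAt (by norm_num)

theorem wd_diff {f : (ι → ℂ) → ℂ} {z : ι → ℂ} (hf : ContDiffAt ℝ 2 f z) (b : ι) :
    DifferentiableAt ℝ (fun w => wd b f w) z := by
  have h := ((Lw b).differentiableAt (x := fderiv ℝ f z)).comp z (fd_diff hf)
  exact h.congr_of_eventuallyEq (Filter.Eventually.of_forall fun w => wd_eq b f w)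

theorem wdb_diff {f : (ι → ℂ) → ℂ} {z : ι → ℂ} (hf : ContDiffAt ℝ 2 f z) (b : ι) :
    DifferentiableAt ℝ (fun w => wdb b f w) z := by
  have h := ((Lb b).differentiableAt (x := fderiv ℝ f z)).comp z (fd_diff hf)
  exact h.congr_of_eventuallyEq (Filter.Eventually.of_forall fun w => wdb_eq b f w)

theorem fd_wd {f : (ι → ℂ) → ℂ} {z : ι → ℂ} (hf : ContDiffAt ℝ 2 f z) (b : ι) (u : ι → ℂ) :
    fderiv ℝ (fun w => wd b f w) z u = Lw b (fderiv ℝ (fderiv ℝ f) z u) := by
  have h : (fun w => wd b f w) = fun w => Lw b (fderiv ℝ f w) := funext fun w => wd_eq b f w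
  have h2 := ((Lw b).hasFDerivAt (x := fderiv ℝ f z)).comp z (fd_diff hf).hasFDerivAt
  rw [h]
  have h3 : HasFDerivAt (fun w => Lw b (fderiv ℝ f w))
    ((Lw b).comp (fderiv ℝ (fderiv ℝ f) z)) z := h2
  rw [h3.fderiv]
  rfl

theorem fd_wdb {f : (ι → ℂ) → ℂ} {z : ι → ℂ} (hf : ContDiffAt ℝ 2 f z) (b : ι) (u : ι → ℂ) :
    fderiv ℝ (fun w => wdb b f w) z u = Lb b (fderiv ℝ (fderiv ℝ f) z u) := by
  have h : (fun w => wdb b f w) = fun w => Lb b (fderiv ℝ f w) := funext fun w => wdb_eq b f w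
  have h2 := ((Lb b).hasFDerivAt (x := fderiv ℝ f z)).comp z (fd_diff hf).hasFDerivAt
  rw [h]
  have h3 : HasFDerivAt (fun w => Lb b (fderiv ℝ f w))
    ((Lb b).comp (fderiv ℝ (fderiv ℝ f) z)) z := h2
  rw [h3.fderiv]
  rfl

theorem fd_conj {f : (ι → ℂ) → ℂ} {z : ι → ℂ} (hf : DifferentiableAt ℝ f z) (v : ι → ℂ) :
    fderiv ℝ (fun w => conj (f w)) z v = conj (fderiv ℝ f z v) := by
  have h2 := (Complex.conjCLE.toContinuousLinearMap.hasFDerivAt (x := f z)).comp z hf.hasFDerivAt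
  have h3 : HasFDerivAt (fun w => conj (f w))
    (Complex.conjCLE.toContinuousLinearMap.comp (fderiv ℝ f z)) z := h2
  rw [h3.fderiv]
  rfl

theorem wd_sum {α : Type} (s : Finset α) (F : α → (ι → ℂ) → ℂ) (z : ι → ℂ)
    (hF : ∀ j ∈ s, DifferentiableAt ℝ (F j) z) (a : ι) :
    wd a (fun w => ∑ j ∈ s, F j w) z = ∑ j ∈ s, wd a (F j) z := by
  rw [wd_eq, fderiv_fun_sum hF, map_sum]
  exact Finset.sum_congr rfl fun j _ => (wd_eq a (F j) z).symm

end lin

/-- W1 -/
theorem pf_W1 : T_W1 := by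
  intro ι _ _ a f g z hf hg
  have hadd : ∀ v, fderiv ℝ (fun w => f w + g w) z v = fderiv ℝ f z v + fderiv ℝ g z v := by
    intro v
    rw [fderiv_fun_add hf hg]
    rfl
  have hmul : ∀ v, fderiv ℝ (fun w => f w * g w) z v =
      f z * fderiv ℝ g z v + g z * fderiv ℝ f z v := by
    intro v
    rw [fderiv_fun_mul hf hg]
    rfl
  refine ⟨?_, ?_, ?_, ?_, ?_, ?_⟩
  · unfold wd
    rw [hadd, hadd]; ring
  · unfold wdb
    rw [hadd, hadd]; ring
  · unfold wd
    rw [hmul, hmul]; ring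
  · unfold wdb
    rw [hmul, hmul]; ring
  · unfold wd wdb
    rw [fd_conj hf, fd_conj hf]
    simp only [map_div₀, map_add, map_mul, Complex.conj_I, map_ofNat]
    ring
  · unfold wd wdb
    rw [fd_conj hf, fd_conj hf]
    simp only [map_div₀, map_sub, map_mul, Complex.conj_I, map_ofNat]
    ring

/-- W5 -/
theorem pf_W5 : T_W5 := by
  intro ι _ _ a b f z hf
  have hs : ∀ u v, fderiv ℝ (fderiv ℝ f) z u v = fderiv ℝ (fderiv ℝ f) z v u := by
    intro u v
    have h : IsSymmSndFDerivAt ℝ f z := hf.isSymmSndFDerivAt (by simp)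
    exact h.eq u v
  refine ⟨?_, ?_, ?_⟩
  · rw [wd, wd, fd_wd hf, fd_wd hf, fd_wd hf, fd_wd hf, Lw_apply, Lw_apply, Lw_apply, Lw_apply,
      hs (Pi.single a 1) (Pi.single b 1), hs (Pi.single a 1) (Pi.single b Complex.I),
      hs (Pi.single a Complex.I) (Pi.single b 1),
      hs (Pi.single a Complex.I) (Pi.single b Complex.I)]
    ring
  · rw [wdb, wdb, fd_wdb hf, fd_wdb hf, fd_wdb hf, fd_wdb hf, Lb_apply, Lb_apply, Lb_apply,
      Lb_apply,
      hs (Pi.single a 1) (Pi.single b 1), hs (Pi.single a 1) (Pi.single b Complex.I),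
      hs (Pi.single a Complex.I) (Pi.single b 1),
      hs (Pi.single a Complex.I) (Pi.single b Complex.I)]
    ring
  · rw [wd, wdb, fd_wdb hf, fd_wdb hf, fd_wd hf, fd_wd hf, Lb_apply, Lb_apply, Lw_apply,
      Lw_apply,
      hs (Pi.single a 1) (Pi.single b 1), hs (Pi.single a 1) (Pi.single b Complex.I),
      hs (Pi.single a Complex.I) (Pi.single b 1),
      hs (Pi.single a Complex.I) (Pi.single b Complex.I)]
    ring

/-- W6 -/
theorem pf_W6 : T_W6 := by
  intro ι _ _ a f U hU hf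
  have hD : ContDiffOn ℝ ∞ (fderiv ℝ f) U := hf.fderiv_of_isOpen hU (by simp)
  constructor
  · have h := (Lw a).contDiff.comp_contDiffOn (n := ∞) hD
    exact h.congr fun w _ => wd_eq a f w
  · have h := (Lb a).contDiff.comp_contDiffOn (n := ∞) hD
    exact h.congr fun w _ => wdb_eq a f w

/-- W8 -/
theorem pf_W8 : T_W8 := by
  intro ι _ _ φ z
  have hre : ∀ w v, conj (fderiv ℝ (cx φ) w v) = fderiv ℝ (cx φ) w v := by
    intro w v
    by_cases hd : DifferentiableAt ℝ (cx φ) w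
    · rw [← fd_conj hd]
      have h : (fun w => conj (cx φ w)) = cx φ := by
        funext w
        exact Complex.conj_ofReal _
      rw [h]
    · rw [fderiv_zero_of_not_differentiableAt hd]
      simp
  have h1 : ∀ w a, wdb a (cx φ) w = conj (wd a (cx φ) w) := by
    intro w a
    unfold wd wdb
    simp only [map_div₀, map_sub, map_mul, Complex.conj_I, map_ofNat]
    rw [hre, hre]
    ring
  refine ⟨h1 z, ?_⟩
  intro hφ
  have hφ2 : ContDiffAt ℝ 2 (cx φ) z := by
    have h := (Complex.ofRealCLM.contDiff (n := 2)).contDiffAt.comp z hφ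
    exact h
  ext a b
  rw [Matrix.conjTranspose_apply]
  change conj (wd b (fun w => wdb a (cx φ) w) z) = wd a (fun w => wdb b (cx φ) w) z
  have h2 : (fun w => wdb a (cx φ) w) = fun w => conj (wd a (cx φ) w) := funext fun w => h1 w a
  rw [h2, (pf_W1 ι b _ _ z (wd_diff hφ2 a) (wd_diff hφ2 a)).2.2.2.2.1, Complex.conj_conj]
  exact ((pf_W5 ι a b (cx φ) z hφ2).2.2).symm

/-- W4 -/
theorem pf_W4 (h2 : T_W2) (h3 : T_W3) : T_W4 := by
  intro ι κ _ _ _ _ G f z hf a b
  have hG : Continuous (fun w => ev G w) := by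
    apply continuous_pi
    intro i
    exact ((h2 κ a (G i) z).2.2).continuous
  have hev : ∀ᶠ w in nhds z, DifferentiableAt ℝ f (ev G w) := by
    have h := (hf.eventually (by simp))
    have h' := (hG.tendsto z).eventually h
    filter_upwards [h'] with w hw
    exact hw.differentiableAt (by norm_num)
  have he : (fun w => wdb b (fun w => f (ev G w)) w) =ᶠ[nhds z]
      fun w => ∑ j, conj (jac G w j b) * wdb j f (ev G w) := by
    filter_upwards [hev] with w hw
    exact (h3 ι κ G f w b hw).2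
  have hjd : ∀ j, DifferentiableAt ℝ (fun w => jac G w j b) z := by
    intro j
    exact ((h2 κ a (MvPolynomial.pderiv b (G j)) z).2.2).differentiable (by simp) z
  have hcjd : ∀ j, DifferentiableAt ℝ (fun w => conj (jac G w j b)) z := by
    intro j
    exact (Complex.conjCLE.toContinuousLinearMap.differentiableAt).comp z (hjd j)
  have hGd : DifferentiableAt ℝ (fun w => ev G w) z := by
    apply differentiableAt_pi.2
    intro i
    exact ((h2 κ a (G i) z).2.2).differentiable (by simp) z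
  have hwd : ∀ j, DifferentiableAt ℝ (fun w => wdb j f (ev G w)) z := by
    intro j
    exact (wdb_diff hf j).comp z hGd
  change wd a (fun w => wdb b (fun w => f (ev G w)) w) z = _
  have hsum : wd a (fun w => ∑ j, conj (jac G w j b) * wdb j f (ev G w)) z =
      ∑ j, wd a (fun w => conj (jac G w j b) * wdb j f (ev G w)) z :=
    wd_sum Finset.univ (fun j w => conj (jac G w j b) * wdb j f (ev G w)) z
      (fun j _ => (hcjd j).mul (hwd j)) a
  rw [wd_eq, he.fderiv_eq, ← wd_eq, hsum]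
  rw [Finset.sum_comm]
  refine Finset.sum_congr rfl fun j _ => ?_
  rw [(pf_W1 κ a _ _ z (hcjd j) (hwd j)).2.2.1, (pf_W1 κ a _ _ z (hjd j) (hjd j)).2.2.2.2.1]
  have h0 : wdb a (fun w => jac G w j b) z = 0 := (h2 κ a (MvPolynomial.pderiv b (G j)) z).2.1
  rw [h0, map_zero, mul_zero, add_zero, (h3 ι κ G (fun w => wdb j f w) z a (wdb_diff hf j)).1,
    Finset.mul_sum]
  refine Finset.sum_congr rfl fun i _ => ?_
  change _ = _ * wd i (fun w => wdb j f w) (ev G z)
  ring

end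

end Pool.Agent.H78.EQ
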